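import Mathlib

/-! A doubly symmetric convex domain whose point of maximal stress is closer to the farthest boundary point. -/

set_option autoImplicit false

namespace Pool.Agent.Results.MP_f43ce7_an.Counter

open Set Metric Complex ComplexConjugate Laplacian InnerProductSpace Filter Topology

/-- `Ω` has a `C²` boundary: near each boundary point it is `{ρ > 0}` for a `C²` function `ρ` with `dρ ≠ 0` there -/
def C2Boundary (Ω : Set ℂ) : Prop :=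
  ∀ q ∈ frontier Ω, ∃ ρ : ℂ → ℝ, ContDiff ℝ 2 ρ ∧ fderiv ℝ ρ q ≠ 0 ∧ ∀ᶠ z in 𝓝 q, z ∈ Ω ↔ 0 < ρ z

/-- the boundary arc in the closed first quadrant -/
def Γ (Ω : Set ℂ) : Set ℂ := {z ∈ frontier Ω | 0 ≤ z.re ∧ 0 ≤ z.im}

noncomputable def P (z : ℂ) : ℂ := (30 * z ^ 2 + 12 * z ^ 4 + 5 * z ^ 6) / 30000
noncomputable def Q (z : ℂ) : ℂ := (60 * z + 48 * z ^ 3 + 30 * z ^ 5) / 30000
noncomputable def R (z : ℂ) : ℂ := (60 + 144 * z ^ 2 + 150 * z ^ 4) / 30000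
noncomputable def u (z : ℂ) : ℝ := (1 - ‖z‖ ^ 2) / 2 + (P z).re
noncomputable def g (z : ℂ) : ℂ := -z + conj (Q z)
noncomputable def L (z : ℂ) : ℂ →L[ℝ] ℂ :=
  -ContinuousLinearMap.id ℝ ℂ + (conjCLE : ℂ →L[ℝ] ℂ) ∘L (ContinuousLinearMap.toSpanSingleton ℂ (R z)).restrictScalars ℝ
noncomputable def U (s d : ℝ) : ℝ :=
  (1 - s) / 2 + (30 * d + 12 * (2 * d ^ 2 - s ^ 2) + 5 * (4 * d ^ 3 - 3 * d * s ^ 2)) / 30000
noncomputable def G (s d : ℝ) : ℝ :=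
  s - 2 * (60 * d + 48 * (2 * d ^ 2 - s ^ 2) + 30 * (4 * d ^ 3 - 3 * d * s ^ 2)) / 30000 +
    s * (3600 + 2304 * s ^ 2 + 900 * s ^ 4 + 5760 * d + 3600 * (2 * d ^ 2 - s ^ 2) + 2880 * s ^ 2 * d) / 30000 ^ 2
def Ω : Set ℂ := {z | ‖z‖ < 2 ∧ 0 < u z}

lemma dP (z : ℂ) : HasDerivAt P (Q z) z :=
  (((((hasDerivAt_pow 2 z).const_mul 30).add ((hasDerivAt_pow 4 z).const_mul 12)).add
    ((hasDerivAt_pow 6 z).const_mul 5)).div_const 30000).congr_deriv (by simp [Q]; ring)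

lemma dQ (z : ℂ) : HasDerivAt Q (R z) z :=
  (((((hasDerivAt_id z).const_mul 60).add ((hasDerivAt_pow 3 z).const_mul 48)).add
    ((hasDerivAt_pow 5 z).const_mul 30)).div_const 30000).congr_deriv (by simp [R]; ring)

lemma du (z : ℂ) : HasFDerivAt u (innerSL ℝ (g z)) z := by
  refine ((((hasStrictFDerivAt_norm_sq z).hasFDerivAt.const_sub 1).mul_const 2⁻¹).add
    (reCLM.hasFDerivAt.comp z ((dP z).hasFDerivAt.restrictScalars ℝ))).congr_fderiv ?_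
  ext h
  simp [g]
  ring

lemma dg (z : ℂ) : HasFDerivAt g (L z) z :=
  (hasFDerivAt_id z).neg.add ((conjCLE : ℂ →L[ℝ] ℂ).hasFDerivAt.comp z ((dQ z).hasFDerivAt.restrictScalars ℝ))

lemma cu : ContDiff ℝ 2 u := by
  have : ContDiff ℝ 2 P := by unfold P; fun_prop
  exact ((contDiff_const.sub (contDiff_norm_sq ℝ)).div_const 2).add (reCLM.contDiff.comp this)

lemma lap (z : ℂ) : Δ u z = -2 := by
  have : fderiv ℝ (fderiv ℝ u) z = (innerSL ℝ : ℂ →L[ℝ] ℂ →L[ℝ] ℝ) ∘L L z := by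
    rw [funext fun z => (du z).fderiv]
    exact ((innerSL ℝ : ℂ →L[ℝ] ℂ →L[ℝ] ℝ).hasFDerivAt.comp z (dg z)).fderiv
  have k : ∀ h, fderiv ℝ (fderiv ℝ u) z h h = ⟪-h + conj (h * R z), h⟫_ℝ := fun h => by rw [this]; rfl
  simp only [laplacian_eq_iteratedFDeriv_complexPlane, iteratedFDeriv_two_apply, Matrix.cons_val_zero,
    Matrix.cons_val_one, k]
  simp
  ring

lemma grad (z : ℂ) : ‖gradient u z‖ ^ 2 = G (z.re ^ 2 + z.im ^ 2) (z.re ^ 2 - z.im ^ 2) := by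
  rw [gradient, LinearIsometryEquiv.norm_map, (du z).fderiv, innerSL_apply_norm, Complex.sq_norm]
  simp only [g, normSq_apply, add_re, add_im, conj_re, conj_im]
  simp [Q, G, pow_succ]
  ring

lemma nsq (z : ℂ) : ‖z‖ ^ 2 = z.re ^ 2 + z.im ^ 2 := by rw [Complex.sq_norm, normSq_apply]; ring

lemma uU (z : ℂ) : u z = U (z.re ^ 2 + z.im ^ 2) (z.re ^ 2 - z.im ^ 2) := by
  rw [u, nsq]
  simp [P, U, pow_succ]
  ring

lemma conc : ConcaveOn ℝ (ball 0 2) u := by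
  refine ⟨convex_ball .., fun x hx y hy a b a0 b0 ab => ?_⟩
  have l : ∀ t : ℝ, HasDerivAt (fun t : ℝ => x + t • (y - x)) (y - x) t := fun t => by
    simpa using ((hasDerivAt_id t).smul_const (y - x)).const_add x
  have d1 := fun t : ℝ => (du _).comp_hasDerivAt t (l t)
  have := (concaveOn_of_hasDerivWithinAt2_nonpos (convex_Icc (0 : ℝ) 1) (fun t _ => (d1 t).continuousAt.continuousWithinAt)
    (fun t _ => (d1 t).hasDerivWithinAt) (fun t _ => (((dg _).comp_hasDerivAt t (l t)).inner ℝ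
      (hasDerivAt_const t (y - x))).hasDerivWithinAt) fun t ht => ?_).2 (left_mem_Icc.2 zero_le_one)
    (right_mem_Icc.2 zero_le_one) a0 b0 ab
  · simpa [show x + b * (y - x) = a * x + b * y by rw [show (a : ℂ) = 1 - b by exact_mod_cast eq_sub_of_add_eq ab]; ring]
      using this
  have m : ‖x + t • (y - x)‖ < 2 := mem_ball_zero_iff.1 ((convex_ball 0 2).add_smul_sub_mem hx hy (interior_subset ht))
  generalize x + t • (y - x) = z at m
  generalize y - x = h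
  have r : ‖R z‖ ≤ 1 := by
    rw [R, norm_div, div_le_one (by simp)]
    refine (norm_add₃_le ..).trans ?_
    simp only [norm_mul, norm_pow, norm_ofNat]
    linarith [pow_le_pow_left₀ (norm_nonneg _) m.le 2, pow_le_pow_left₀ (norm_nonneg _) m.le 4]
  have := real_inner_le_norm (conj (h * R z)) h
  rw [RCLike.norm_conj, norm_mul] at this
  simp only [inner_zero_right, zero_add, L, add_apply, inner_add_left]
  simp only [neg_apply, ContinuousLinearMap.id_apply, inner_neg_left, real_inner_self_eq_norm_sq]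
  have e : ⟪((conjCLE : ℂ →L[ℝ] ℂ) ∘L (ContinuousLinearMap.toSpanSingleton ℂ (R z)).restrictScalars ℝ) h, h⟫_ℝ =
    ⟪conj (h * R z), h⟫_ℝ := rfl
  nlinarith [mul_le_mul_of_nonneg_left r (sq_nonneg ‖h‖)]

lemma near {s d : ℝ} (h1 : -s ≤ d) (h2 : d ≤ s) (h4 : s ≤ 4) (h : 0 ≤ U s d) : s ≤ 1004 / 1000 := by
  have a : ∀ c, s ≤ c → (s - 1) / 2 ≤ (30 * c + 12 * c ^ 2 + 5 * c ^ 3) / 30000 := fun c hc => by
    have : 4 * d ^ 3 - 3 * d * s ^ 2 ≤ s ^ 3 := by nlinarith [mul_nonneg (sub_nonneg.2 h2) (sq_nonneg (s + 2 * d))]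
    have s0 : 0 ≤ s := by linarith
    unfold U at h
    nlinarith [pow_le_pow_left₀ s0 hc 2, pow_le_pow_left₀ s0 hc 3]
  linarith [a (105 / 100) (by linarith [a 4 h4])]

lemma near' {s d : ℝ} (h1 : -s ≤ d) (h2 : d ≤ s) (h4 : s ≤ 1004 / 1000) (h : U s d = 0) : 996 / 1000 ≤ s := by
  have : -s ^ 3 ≤ 4 * d ^ 3 - 3 * d * s ^ 2 := by nlinarith [mul_nonneg (neg_le_iff_add_nonneg.1 h1) (sq_nonneg (s - 2 * d))]
  have s0 : 0 ≤ s := by linarith
  unfold U at h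
  nlinarith [pow_le_pow_left₀ s0 h4 2, pow_le_pow_left₀ s0 h4 3]

lemma opn : IsOpen Ω := (isOpen_lt continuous_norm continuous_const).inter (isOpen_lt continuous_const cu.continuous)

lemma front {z : ℂ} : z ∈ frontier Ω ↔ z.re ^ 2 + z.im ^ 2 ≤ 1004 / 1000 ∧ u z = 0 := by
  rw [opn.frontier_eq]
  constructor
  · rintro ⟨h, h'⟩
    obtain ⟨a, b⟩ := closure_minimal (t := {z | ‖z‖ ≤ 2 ∧ 0 ≤ u z}) (fun z hz => ⟨hz.1.le, hz.2.le⟩)
      ((isClosed_le continuous_norm continuous_const).and (isClosed_le continuous_const cu.continuous)) h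
    have := near (by nlinarith) (by nlinarith) (by rw [← nsq]; nlinarith [norm_nonneg z]) (uU z ▸ b)
    exact ⟨this, le_antisymm (not_lt.1 fun e => h' ⟨by nlinarith [nsq z, norm_nonneg z], e⟩) b⟩
  · rintro ⟨h, h'⟩
    have z2 : z ∈ ball (0 : ℂ) 2 := mem_ball_zero_iff.2 (by nlinarith [nsq z])
    refine ⟨mem_closure_of_tendsto (b := 𝓝[<] (1 : ℝ)) (f := fun t => (1 - t) • (0 : ℂ) + t • z)
      (tendsto_nhdsWithin_of_tendsto_nhds (Continuous.tendsto' (by fun_prop) _ _ (by simp))) ?_, fun e => e.2.ne' h'⟩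
    filter_upwards [Ioo_mem_nhdsLT zero_lt_one] with t ht
    have a := sub_nonneg.2 ht.2.le
    refine ⟨mem_ball_zero_iff.1 (convex_ball 0 2 (by simp) z2 a ht.1.le (by ring)),
      lt_of_lt_of_le ?_ (conc.2 (by simp) z2 a ht.1.le (by ring))⟩
    rw [h']
    simp [u, P, ht.2]

lemma ray (w : ℂ) (h1 : 11 / 10 ≤ w.re ^ 2 + w.im ^ 2) (h2 : w.re ^ 2 + w.im ^ 2 ≤ 4) :
    ∃ t : ℝ, 0 ≤ t ∧ t * w ∈ frontier Ω := by
  have c : ContinuousOn (fun t : ℝ => u (t * w)) (Icc 0 1) := (cu.continuous.comp (by fun_prop)).continuousOn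
  obtain ⟨t, ht, e⟩ := intermediate_value_Icc' zero_le_one c (show (0 : ℝ) ∈ _ from ⟨not_lt.1 fun e => by
    linarith [near (by nlinarith) (by nlinarith) h2 (uU w ▸ (show 0 ≤ u w by simpa using e.le))], by simp [u, P]⟩)
  refine ⟨t, ht.1, front.2 ⟨near (by nlinarith) (by nlinarith) ?_ (uU _ ▸ show 0 ≤ u (t * w) from e.ge), e⟩⟩
  simp only [re_ofReal_mul, im_ofReal_mul]
  nlinarith [mul_le_one₀ ht.2 ht.1 ht.2]

lemma fr {z : ℂ} (h : z ∈ frontier Ω) : 996 / 1000 ≤ z.re ^ 2 + z.im ^ 2 ∧ z.re ^ 2 + z.im ^ 2 ≤ 1004 / 1000 ∧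
    U (z.re ^ 2 + z.im ^ 2) (z.re ^ 2 - z.im ^ 2) = 0 :=
  have := front.1 h
  ⟨near' (by nlinarith) (by nlinarith) this.1 (uU z ▸ this.2), this.1, uU z ▸ this.2⟩

lemma hi {s d a : ℝ} (s1 : 996 / 1000 ≤ s) (s2 : s ≤ 1004 / 1000) (a1 : 996 / 1000 ≤ a) (a2 : a ≤ 1004 / 1000)
    (h : U s d = 0) (h' : U a a = 0) (l : a ≤ s) (h2 : d ≤ s) : s = a ∧ d = s := by
  have k : 0 < 30 + 24 * (s + d) + 20 * (s ^ 2 + s * d + d ^ 2) - 15 * s ^ 2 := by nlinarith [sq_nonneg (d + 11 / 10)]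
  have k' : 0 < 15000 - 30 - 12 * (s + a) - 5 * (s ^ 2 + s * a + a ^ 2) := by nlinarith
  have e : (s - d) * (30 + 24 * (s + d) + 20 * (s ^ 2 + s * d + d ^ 2) - 15 * s ^ 2) +
      (s - a) * (15000 - 30 - 12 * (s + a) - 5 * (s ^ 2 + s * a + a ^ 2)) = 0 := by unfold U at h h'; linarith
  constructor <;> nlinarith [mul_nonneg (sub_nonneg.2 h2) k.le, mul_nonneg (sub_nonneg.2 l) k'.le]

lemma lo {s d a : ℝ} (s1 : 996 / 1000 ≤ s) (s2 : s ≤ 1004 / 1000) (a1 : 996 / 1000 ≤ a) (a2 : a ≤ 1004 / 1000)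
    (h : U s d = 0) (h' : U a (-a) = 0) (l : s ≤ a) (h2 : -s ≤ d) : s = a ∧ d = -s := by
  have k : 0 < 30 + 24 * (d - s) + 20 * (s ^ 2 - s * d + d ^ 2) - 15 * s ^ 2 := by nlinarith [sq_nonneg (d + 1 / 10)]
  have k' : 0 < 15000 + 30 - 12 * (s + a) + 5 * (s ^ 2 + s * a + a ^ 2) := by nlinarith
  have e : (d + s) * (30 + 24 * (d - s) + 20 * (s ^ 2 - s * d + d ^ 2) - 15 * s ^ 2) +
      (a - s) * (15000 + 30 - 12 * (s + a) + 5 * (s ^ 2 + s * a + a ^ 2)) = 0 := by unfold U at h h'; linarith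
  constructor <;> nlinarith [mul_nonneg (neg_le_iff_add_nonneg.1 h2) k.le, mul_nonneg (sub_nonneg.2 l) k'.le]

lemma Ghi {s d : ℝ} (s1 : 996 / 1000 ≤ s) (s2 : s ≤ 1004 / 1000) (h : U s d = 0) (h1 : -s ≤ d) (h2 : d ≤ 1 / 20) :
    G s d < 1 + 2 * 40 / 30000 := by
  have a : s ^ 2 ≤ 101 / 100 := by nlinarith
  have a' : 99 / 100 ≤ s ^ 2 := by nlinarith
  have b : 3600 + 2304 * s ^ 2 + 900 * s ^ 4 + 5760 * d + 3600 * (2 * d ^ 2 - s ^ 2) + 2880 * s ^ 2 * d ≤ 21000 := by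
    nlinarith
  have c : -30 * d - 36 * (2 * d ^ 2 - s ^ 2) - 25 * (4 * d ^ 3 - 3 * d * s ^ 2) ≤ 395 / 10 := by
    nlinarith [mul_nonneg (sub_nonneg.2 h2) (sq_nonneg d), mul_nonneg (sub_nonneg.2 h2) (sub_nonneg.2 a),
      mul_nonneg (neg_le_iff_add_nonneg.1 h1) (sq_nonneg d)]
  unfold U at h
  unfold G
  nlinarith

lemma Gpos {s d : ℝ} (s1 : 996 / 1000 ≤ s) (s2 : s ≤ 1004 / 1000) (h1 : -s ≤ d) (h2 : d ≤ s) : 0 < G s d := by
  have a : s ^ 2 ≤ 101 / 100 := by nlinarith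
  have b : -30000 ≤ 3600 + 2304 * s ^ 2 + 900 * s ^ 4 + 5760 * d + 3600 * (2 * d ^ 2 - s ^ 2) + 2880 * s ^ 2 * d := by
    nlinarith
  have : 4 * d ^ 3 - 3 * d * s ^ 2 ≤ s ^ 3 := by nlinarith [mul_nonneg (sub_nonneg.2 h2) (sq_nonneg (s + 2 * d))]
  unfold G
  nlinarith

lemma Glo {s : ℝ} (s1 : 996 / 1000 ≤ s) (h : U s (20 / 101 * s) = 0) :
    1 + 2 * 40 / 30000 ≤ G s (20 / 101 * s) := by
  have s0 : 0 ≤ s := by linarith
  unfold U at h
  unfold G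
  nlinarith [pow_le_pow_left₀ (by norm_num) s1 2, pow_le_pow_left₀ (by norm_num) s1 3, pow_nonneg s0 4, pow_nonneg s0 5]

theorem result : ∃ (Ω : Set ℂ) (u : ℂ → ℝ) (xmax xmin p : ℂ),
    IsOpen Ω ∧ Bornology.IsBounded Ω ∧ Convex ℝ Ω ∧ (∀ z ∈ Ω, conj z ∈ Ω ∧ -conj z ∈ Ω) ∧ (∀ c r, Ω ≠ ball c r) ∧
    C2Boundary Ω ∧ ContDiff ℝ 2 u ∧ (∀ z ∈ Ω, Δ u z = -2) ∧ (∀ z ∈ frontier Ω, u z = 0) ∧
    (xmax ∈ Γ Ω ∧ ∀ z ∈ Γ Ω, z ≠ xmax → ‖z‖ < ‖xmax‖) ∧ (xmin ∈ Γ Ω ∧ ∀ z ∈ Γ Ω, z ≠ xmin → ‖xmin‖ < ‖z‖) ∧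
    (p ∈ Γ Ω ∧ ∀ z ∈ frontier Ω, ‖gradient u z‖ ≤ ‖gradient u p‖) ∧ dist p xmax < dist p xmin := by
  obtain ⟨α, α0, hα⟩ := ray 2 (by norm_num) (by norm_num)
  obtain ⟨β, β0, hβ⟩ := ray (2 * I) (by norm_num) (by norm_num)
  obtain ⟨t, -, ht⟩ := ray ⟨11 / 10, 9 / 10⟩ (by norm_num) (by norm_num)
  have bd : Bornology.IsBounded Ω := isBounded_ball.subset fun z hz => mem_ball_zero_iff.2 hz.1
  have cG : Continuous fun z : ℂ => G (z.re ^ 2 + z.im ^ 2) (z.re ^ 2 - z.im ^ 2) := by unfold G; fun_prop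
  obtain ⟨q, hq, mq⟩ := (bd.isCompact_closure.of_isClosed_subset isClosed_frontier frontier_subset_closure).exists_isMaxOn
    ⟨_, ht⟩ cG.continuousOn
  have fα := fr hα
  have fβ := fr hβ
  have ft := fr ht
  simp only [ofReal_re, ofReal_im, zero_mul, re_ofNat, im_ofNat, mul_re, mul_im, I_re, I_im, mul_zero, mul_one, sub_zero,
    add_zero, zero_add, zero_sub, ne_eq, OfNat.ofNat_ne_zero, not_false_eq_true, zero_pow] at fα fβ ft
  have H : ∀ z ∈ Γ Ω, z ≠ α * 2 → ‖z‖ < ‖(α * 2 : ℂ)‖ := fun z hz e => by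
    obtain ⟨a, b, c⟩ := fr hz.1
    refine lt_of_pow_lt_pow_left₀ 2 (norm_nonneg _) (not_le.1 fun l => e ?_)
    rw [nsq, nsq] at l
    obtain ⟨e1, e2⟩ := hi a b fα.1 fα.2.1 c fα.2.2 (by simpa using l) (by nlinarith)
    have : z.im = 0 := by nlinarith
    exact Complex.ext (by simpa using (pow_left_inj₀ hz.2.1 (by positivity) two_ne_zero).1 (by nlinarith)) (by simpa)
  have H' : ∀ z ∈ Γ Ω, z ≠ β * (2 * I) → ‖(β * (2 * I) : ℂ)‖ < ‖z‖ := fun z hz e => by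
    obtain ⟨a, b, c⟩ := fr hz.1
    refine lt_of_pow_lt_pow_left₀ 2 (norm_nonneg _) (not_le.1 fun l => e ?_)
    rw [nsq, nsq] at l
    obtain ⟨e1, e2⟩ := lo a b fβ.1 fβ.2.1 c fβ.2.2 (by simpa using l) (by nlinarith)
    have : z.re = 0 := by nlinarith
    exact Complex.ext (by simpa) (by simpa using (pow_left_inj₀ hz.2.2 (by positivity) two_ne_zero).1 (by nlinarith))
  have Γα : (α * 2 : ℂ) ∈ Γ Ω := ⟨hα, by simpa, by simp⟩
  have βα : β < α := by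
    have := H' _ Γα fun e => by have := congrArg re e; simp at this; nlinarith
    simpa [abs_of_nonneg α0, abs_of_nonneg β0] using this
  have ng : ∀ z ∈ frontier Ω, -z ∈ frontier Ω := fun z hz => by simpa [front, uU] using hz
  refine ⟨Ω, u, α * 2, β * (2 * I), ⟨|q.re|, |q.im|⟩, opn, bd, by simpa [Ω] using conc.convex_gt 0,
    fun z hz => by simpa [Ω, uU] using hz, ?_, fun q hq => ⟨u, cu, fun e => ?_, ?_⟩, cu, fun z _ => lap z,
    fun z hz => (front.1 hz).2, ⟨Γα, H⟩, ⟨⟨hβ, by simp, by simpa⟩, H'⟩,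
    ⟨⟨by simpa [front, uU] using hq, abs_nonneg _, abs_nonneg _⟩, fun z hz => ?_⟩, ?_⟩
  · intro c r e
    have r0 : r ≠ 0 := by rintro rfl; simp [e] at hα
    have k : ∀ z ∈ frontier Ω, (z.re - c.re) ^ 2 + (z.im - c.im) ^ 2 = r ^ 2 := fun z hz => by
      rw [e, frontier_ball c r0, mem_sphere, dist_eq_norm] at hz
      simpa [hz] using (nsq (z - c)).symm
    have h1 := k _ hα
    have h2 := k _ (ng _ hα)
    have h3 := k _ hβ
    have h4 := k _ (ng _ hβ)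
    simp at h1 h2 h3 h4
    nlinarith
  · have := grad q
    obtain ⟨a, b, -⟩ := fr hq
    rw [gradient, e] at this
    exact (Gpos (d := q.re ^ 2 - q.im ^ 2) a b (by nlinarith) (by nlinarith)).ne (by simpa using this)
  · filter_upwards [(isOpen_lt continuous_norm continuous_const).mem_nhds
      (show ‖q‖ < 2 by nlinarith [nsq q, (fr hq).2.1])] with z hz using and_iff_right hz
  · refine le_of_pow_le_pow_left₀ two_ne_zero (norm_nonneg _) ?_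
    simpa only [grad, sq_abs] using isMaxOn_iff.1 mq z hz
  · obtain ⟨a, b, c⟩ := fr hq
    have e : (t * (11 / 10)) ^ 2 - (t * (9 / 10)) ^ 2 = 20 / 101 * ((t * (11 / 10)) ^ 2 + (t * (9 / 10)) ^ 2) := by ring
    have k' := isMaxOn_iff.1 mq _ ht
    simp only [re_ofReal_mul, im_ofReal_mul, e] at k'
    have k := (Glo ft.1 (e ▸ ft.2.2)).trans k'
    have d : 1 / 20 < q.re ^ 2 - q.im ^ 2 := not_le.1 fun l => (Ghi a b c (by nlinarith) l).not_ge k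
    refine lt_of_pow_lt_pow_left₀ 2 dist_nonneg ?_
    rw [dist_eq_norm, dist_eq_norm, nsq, nsq]
    rw [← sq_abs q.re, ← sq_abs q.im] at b d
    have x0 := abs_nonneg q.re
    have y0 := abs_nonneg q.im
    generalize |q.re| = x, |q.im| = y at *
    have : 1 / 40 ≤ x - y := by nlinarith [sq_nonneg (x - y), sq_nonneg (x + y - 1)]
    have : 49 / 100 ≤ α := by nlinarith
    simp
    nlinarith

end Pool.Agent.Results.MP_f43ce7_an.Counter
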